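import Mathlib

/-!
# MP_06047d_an: periods of `x_{n+k} = max {x_{n+k-1}, ..., x_{n+1}, 0} - x_n`

The conjectured inclusion for the set of periods fails for every order `k ≥ 5`.
-/

set_option autoImplicit false

namespace Pool.Agent.Results.MP_06047d_an.AllOrdersFail

/-- `x` is a solution of `x_{n+k} = max {x_{n+k-1}, ..., x_{n+1}, 0} - x_n`, `n ≥ 1`.
(The value `x 0` plays no role.) -/
def IsSolution (k : ℕ) (x : ℕ → ℝ) : Prop :=
  ∀ n : ℕ, 1 ≤ n → x (n + k) = (Finset.Ioo n (n + k)).fold max 0 x - x n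

/-- `x` is periodic on the indices `n ≥ 1` and `N` is the least period. -/
def HasPeriod (x : ℕ → ℝ) (N : ℕ) : Prop :=
  IsLeast {N : ℕ | 1 ≤ N ∧ ∀ n : ℕ, 1 ≤ n → x (n + N) = x n} N

/-- The set of all periods of periodic solutions. -/
def Per (k : ℕ) : Set ℕ := {N | ∃ x : ℕ → ℝ, IsSolution k x ∧ HasPeriod x N}

/-- The conjectured superset of the set of periods. -/
def Conjectured (k : ℕ) : Set ℕ :=
  {N | N = 1 ∨ (N : ℝ) = (3 - (-1) ^ k) / 2 ∨ N = 2 * k ∨ N = 3 * k - 1} ∪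
    {N | ∃ a b : ℕ, 1 ≤ a ∧ 1 ≤ b ∧ Nat.gcd a b = 1 ∧ N = (3 * k - 2) * a + (3 * k - 1) * b}

lemma fold_max_eq {S : Finset ℕ} {x : ℕ → ℝ} {s : ℝ} (h0 : 0 ≤ s) (h1 : ∀ j ∈ S, x j ≤ s)
    (h2 : s = 0 ∨ ∃ j ∈ S, x j = s) : S.fold max 0 x = s := by
  apply le_antisymm
  · rw [Finset.fold_max_le]
    exact ⟨h0, h1⟩
  · rw [Finset.le_fold_max]
    rcases h2 with h | ⟨j, hj, hx⟩
    · exact Or.inl h.le
    · exact Or.inr ⟨j, hj, hx.ge⟩

/-- the periodic sequence with `y` on one period of length `N` -/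
def per (N : ℕ) (y : ℕ → ℤ) (n : ℕ) : ℝ := (y (n % N) : ℝ)

lemma isSolution_per {k N : ℕ} {y : ℕ → ℤ} (hN : 0 < N)
    (h0 : ∀ i < N, 0 ≤ y i + y ((i + k) % N))
    (h1 : ∀ i < N, ∀ j, 1 ≤ j → j < k → y ((i + j) % N) ≤ y i + y ((i + k) % N))
    (h2 : ∀ i < N, y i + y ((i + k) % N) = 0 ∨
      ∃ j, 1 ≤ j ∧ j < k ∧ y ((i + j) % N) = y i + y ((i + k) % N)) :
    IsSolution k (per N y) := by
  intro n _
  have hi : n % N < N := Nat.mod_lt _ hN
  have e : ∀ j, (n + j) % N = (n % N + j) % N := fun j => by rw [Nat.mod_add_mod]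
  have key : (Finset.Ioo n (n + k)).fold max 0 (per N y) =
      ((y (n % N) + y ((n % N + k) % N) : ℤ) : ℝ) := by
    apply fold_max_eq
    · exact_mod_cast h0 _ hi
    · intro j hj
      rw [Finset.mem_Ioo] at hj
      obtain ⟨d, rfl⟩ : ∃ d, j = n + d := ⟨j - n, by omega⟩
      have := h1 _ hi d (by omega) (by omega)
      unfold per
      rw [e d]
      exact_mod_cast this
    · rcases h2 _ hi with h | ⟨j, hj1, hj2, h⟩
      · left
        exact_mod_cast h
      · right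
        refine ⟨n + j, Finset.mem_Ioo.2 ⟨by omega, by omega⟩, ?_⟩
        unfold per
        rw [e j]
        exact_mod_cast h
  rw [key]
  unfold per
  rw [e k]
  push_cast
  ring

lemma per_add (N : ℕ) (y : ℕ → ℤ) (n : ℕ) : per N y (n + N) = per N y n := by
  unfold per
  rw [Nat.add_mod_right]

/-! ### Order five -/

/-- one period of the solution for `k = 5` -/
def y5 : ℕ → ℤ := fun i =>
  ([0, 1, 0, 0, -1, 1, 0, 1, 1, 2, 1, 2, 1, 1, 0, 1, -1, 0, 0, 1, 0, 2, 2, 2, 1, 2, 0, 0, 0, 1,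
    -1, 1, 1, 1, 0, 2, 1, 1, 1, 2, 0, 1, 1, 1, -1, 1, 0, 0, 0, 2, 1, 2, 2, 2] : List ℤ).getD i 0

lemma y5_le : ∀ i < 54, ∀ j < 5, 1 ≤ j → y5 ((i + j) % 54) ≤ y5 i + y5 ((i + 5) % 54) := by
  decide

lemma y5_eq : ∀ i < 54, y5 i + y5 ((i + 5) % 54) = 0 ∨
    ∃ j < 5, 1 ≤ j ∧ y5 ((i + j) % 54) = y5 i + y5 ((i + 5) % 54) := by
  decide

lemma y5_shift : ∀ M < 54, 1 ≤ M → y5 ((4 + M) % 54) = -1 → y5 ((16 + M) % 54) = -1 → False := by
  decide

lemma sol5 : IsSolution 5 (per 54 y5) := by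
  apply isSolution_per (by norm_num)
  · decide
  · intro i hi j h1 h2
    exact y5_le i hi j h2 h1
  · intro i hi
    rcases y5_eq i hi with h | ⟨j, h1, h2, h3⟩
    · exact Or.inl h
    · exact Or.inr ⟨j, h2, h1, h3⟩

lemma hasPeriod5 : HasPeriod (per 54 y5) 54 := by
  refine ⟨⟨by norm_num, fun n _ => per_add _ _ _⟩, ?_⟩
  rintro M ⟨hM, h⟩
  by_contra hlt
  push Not at hlt
  apply y5_shift M hlt hM
  · have := h 4 (by norm_num)
    unfold per at this
    have e : y5 (4 % 54) = -1 := by decide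
    rw [e] at this
    exact_mod_cast this
  · have := h 16 (by norm_num)
    unfold per at this
    have e : y5 (16 % 54) = -1 := by decide
    rw [e] at this
    exact_mod_cast this

lemma not_conj5 : 54 ∉ Conjectured 5 := by
  rintro (h | ⟨a, b, ha, hb, hg, h⟩)
  · rcases h with h | h | h | h
    · norm_num at h
    · norm_num at h
    · norm_num at h
    · norm_num at h
  · have ha' : a ≤ 4 := by omega
    have hb' : b ≤ 3 := by omega
    have h' : 13 * a + 14 * b = 54 := by omega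
    have : a = 2 ∧ b = 2 := by omega
    rw [this.1, this.2] at hg
    norm_num at hg

/-! ### Order at least six -/

/-- one period, of length `3 m + 16 = 3 k - 2`, of the solution for `k = m + 6` -/
def y (m : ℕ) (u : ℕ) : ℤ :=
  if u ≤ m + 1 then (m : ℤ) + 1 - u
  else if u = m + 2 then 0
  else if u = m + 3 then 1
  else if u = m + 4 then 1
  else if u = m + 5 then 0
  else if u ≤ 2 * m + 5 then -1
  else if u = 2 * m + 6 then 0
  else if u = 2 * m + 7 then 1
  else if u = 2 * m + 8 then 1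
  else if u = 2 * m + 9 then 0
  else if u ≤ 3 * m + 11 then (u : ℤ) - 2 * m - 10
  else if u = 3 * m + 12 then (m : ℤ) + 1
  else if u = 3 * m + 13 then (m : ℤ)
  else if u = 3 * m + 14 then (m : ℤ)
  else (m : ℤ) + 1

/-- the maximum over the window -/
def s (m : ℕ) (i : ℕ) : ℤ :=
  if i < m then (m : ℤ) - i
  else if i ≤ m + 5 then 1
  else if i ≤ 2 * m + 5 then (i : ℤ) - m - 5
  else (m : ℤ) + 1

lemma mod_cases {i j N : ℕ} (hi : i < N) (hj : j < N) :
    (i + j < N ∧ (i + j) % N = i + j) ∨ (N ≤ i + j ∧ (i + j) % N = i + j - N) := by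
  by_cases h : i + j < N
  · exact Or.inl ⟨h, Nat.mod_eq_of_lt h⟩
  · right
    refine ⟨by omega, ?_⟩
    rw [Nat.mod_eq_sub_mod (by omega), Nat.mod_eq_of_lt (by omega)]

lemma y_a {m u : ℕ} (h : u ≤ m + 1) : y m u = (m : ℤ) + 1 - u := by
  unfold y; rw [if_pos h]

lemma y_neg {m u : ℕ} (h : m + 6 ≤ u) (h' : u ≤ 2 * m + 5) : y m u = -1 := by
  unfold y; repeat (first | rw [if_neg (by omega)] | rw [if_pos (by omega)])

lemma y_b {m u : ℕ} (h : m ≤ u) (h' : u ≤ 2 * m + 11) : y m u ≤ 1 := by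
  unfold y; repeat' split
  all_goals omega

lemma y_c {m u : ℕ} (h : 2 * m + 10 ≤ u) (h' : u ≤ 3 * m + 11) :
    y m u = (u : ℤ) - 2 * m - 10 := by
  unfold y; repeat (first | rw [if_neg (by omega)] | rw [if_pos (by omega)])

lemma y_le {m u : ℕ} : y m u ≤ m + 1 := by
  unfold y; repeat' split
  all_goals omega

lemma y_last {m u : ℕ} (h : 3 * m + 15 ≤ u) : y m u = m + 1 := by
  unfold y; repeat (first | rw [if_neg (by omega)] | rw [if_pos (by omega)])

lemma y_eq_neg {m u : ℕ} (hu : u < 3 * m + 16) (h : y m u = -1) : m + 6 ≤ u ∧ u ≤ 2 * m + 5 := by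
  unfold y at h
  by_contra hc
  have : ∀ z : ℤ, z = -1 → z ≠ -1 → False := fun z a b => b a
  refine this _ h ?_
  clear h
  repeat' split
  all_goals omega

lemma y2 (m : ℕ) : y m (m + 2) = 0 := by
  unfold y; repeat (first | rw [if_neg (by omega)] | rw [if_pos (by omega)])
lemma y3 (m : ℕ) : y m (m + 3) = 1 := by
  unfold y; repeat (first | rw [if_neg (by omega)] | rw [if_pos (by omega)])
lemma y4 (m : ℕ) : y m (m + 4) = 1 := by
  unfold y; repeat (first | rw [if_neg (by omega)] | rw [if_pos (by omega)])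
lemma y5' (m : ℕ) : y m (m + 5) = 0 := by
  unfold y; repeat (first | rw [if_neg (by omega)] | rw [if_pos (by omega)])
lemma y6 (m : ℕ) : y m (2 * m + 6) = 0 := by
  unfold y; repeat (first | rw [if_neg (by omega)] | rw [if_pos (by omega)])
lemma y7 (m : ℕ) : y m (2 * m + 7) = 1 := by
  unfold y; repeat (first | rw [if_neg (by omega)] | rw [if_pos (by omega)])
lemma y8 (m : ℕ) : y m (2 * m + 8) = 1 := by
  unfold y; repeat (first | rw [if_neg (by omega)] | rw [if_pos (by omega)])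
lemma y9 (m : ℕ) : y m (2 * m + 9) = 0 := by
  unfold y; repeat (first | rw [if_neg (by omega)] | rw [if_pos (by omega)])
lemma y12 (m : ℕ) : y m (3 * m + 12) = m + 1 := by
  unfold y; repeat (first | rw [if_neg (by omega)] | rw [if_pos (by omega)])
lemma y13 (m : ℕ) : y m (3 * m + 13) = m := by
  unfold y; repeat (first | rw [if_neg (by omega)] | rw [if_pos (by omega)])
lemma y14 (m : ℕ) : y m (3 * m + 14) = m := by
  unfold y; repeat (first | rw [if_neg (by omega)] | rw [if_pos (by omega)])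
lemma y15 (m : ℕ) : y m (3 * m + 15) = m + 1 := y_last le_rfl

lemma sum_eq {m i : ℕ} (hi : i < 3 * m + 16) :
    y m i + y m ((i + (m + 6)) % (3 * m + 16)) = s m i := by
  have hs : s m i = if i < m then (m : ℤ) - i else if i ≤ m + 5 then 1
    else if i ≤ 2 * m + 5 then (i : ℤ) - m - 5 else (m : ℤ) + 1 := rfl
  rcases lt_or_ge i m with h | h
  · rw [Nat.mod_eq_of_lt (by omega), y_a (by omega), y_neg (by omega) (by omega), hs, if_pos h]
    ring
  rcases le_or_gt i (m + 5) with h2 | h2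
  · rw [hs, if_neg (by omega), if_pos h2, Nat.mod_eq_of_lt (by omega)]
    obtain ⟨t, rfl, ht⟩ : ∃ t, i = m + t ∧ t ≤ 5 := ⟨i - m, by omega, by omega⟩
    interval_cases t
    · rw [y_a (by omega), show m + 0 + (m + 6) = 2 * m + 6 by ring, y6]; push_cast; ring
    · rw [y_a (by omega), show m + 1 + (m + 6) = 2 * m + 7 by ring, y7]; push_cast; ring
    · rw [y2, show m + 2 + (m + 6) = 2 * m + 8 by ring, y8]; norm_num
    · rw [y3, show m + 3 + (m + 6) = 2 * m + 9 by ring, y9]; norm_num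
    · rw [y4, y_c (by omega) (by omega)]; push_cast; ring
    · rw [y5', y_c (by omega) (by omega)]; push_cast; ring
  rcases le_or_gt i (2 * m + 5) with h3 | h3
  · rw [hs, if_neg (by omega), if_neg (by omega), if_pos h3, Nat.mod_eq_of_lt (by omega),
      y_neg (by omega) h3, y_c (by omega) (by omega)]
    push_cast; ring
  rw [hs, if_neg (by omega), if_neg (by omega), if_neg (by omega)]
  rcases le_or_gt i (2 * m + 9) with h4 | h4
  · rw [Nat.mod_eq_of_lt (by omega)]
    obtain ⟨t, rfl, ht⟩ : ∃ t, i = 2 * m + 6 + t ∧ t ≤ 3 := ⟨i - (2 * m + 6), by omega, by omega⟩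
    interval_cases t
    · rw [show 2 * m + 6 + 0 + (m + 6) = 3 * m + 12 by ring, show 2 * m + 6 + 0 = 2 * m + 6 by ring,
        y6, y12]; ring
    · rw [show 2 * m + 6 + 1 + (m + 6) = 3 * m + 13 by ring, show 2 * m + 6 + 1 = 2 * m + 7 by ring,
        y7, y13]; ring
    · rw [show 2 * m + 6 + 2 + (m + 6) = 3 * m + 14 by ring, show 2 * m + 6 + 2 = 2 * m + 8 by ring,
        y8, y14]; ring
    · rw [show 2 * m + 6 + 3 + (m + 6) = 3 * m + 15 by ring, show 2 * m + 6 + 3 = 2 * m + 9 by ring,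
        y9, y15]; ring
  have e : (i + (m + 6)) % (3 * m + 16) = i - (2 * m + 10) := by
    rw [Nat.mod_eq_sub_mod (by omega), Nat.mod_eq_of_lt (by omega)]; omega
  rw [e]
  rcases le_or_gt i (3 * m + 11) with h5 | h5
  · rw [y_c (by omega) h5, y_a (by omega)]
    push_cast [show 2 * m + 10 ≤ i by omega]; ring
  obtain ⟨t, rfl, ht⟩ : ∃ t, i = 3 * m + 12 + t ∧ t ≤ 3 := ⟨i - (3 * m + 12), by omega, by omega⟩
  interval_cases t
  · rw [show 3 * m + 12 + 0 - (2 * m + 10) = m + 2 by omega, y2, show 3 * m + 12 + 0 = 3 * m + 12 by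
      ring, y12]; ring
  · rw [show 3 * m + 12 + 1 - (2 * m + 10) = m + 3 by omega, y3, show 3 * m + 12 + 1 = 3 * m + 13 by
      ring, y13]
  · rw [show 3 * m + 12 + 2 - (2 * m + 10) = m + 4 by omega, y4, show 3 * m + 12 + 2 = 3 * m + 14 by
      ring, y14]
  · rw [show 3 * m + 12 + 3 - (2 * m + 10) = m + 5 by omega, y5', show 3 * m + 12 + 3 = 3 * m + 15
      by ring, y15]; ring

lemma s_nonneg {m i : ℕ} : 0 ≤ s m i := by
  unfold s; split_ifs <;> omega

lemma le_s {m i j : ℕ} (hi : i < 3 * m + 16) (hj : 1 ≤ j) (hj' : j < m + 6) :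
    y m ((i + j) % (3 * m + 16)) ≤ s m i := by
  rcases le_or_gt (2 * m + 6) i with h | h
  · refine y_le.trans ?_
    unfold s; split_ifs <;> omega
  rw [Nat.mod_eq_of_lt (by omega)]
  rcases lt_or_ge i m with h1 | h1
  · rcases le_or_gt (i + j) (m + 1) with h2 | h2
    · rw [y_a h2]; unfold s; rw [if_pos h1]; push_cast; omega
    · refine (y_b (by omega) (by omega)).trans ?_
      unfold s; rw [if_pos h1]; omega
  rcases le_or_gt (i + j) (2 * m + 11) with h2 | h2
  · refine (y_b (by omega) h2).trans ?_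
    unfold s; split_ifs <;> omega
  · rw [y_c (by omega) (by omega)]
    unfold s; split_ifs <;> push_cast <;> omega

lemma s_attained {m i : ℕ} (hi : i < 3 * m + 16) :
    ∃ j, 1 ≤ j ∧ j < m + 6 ∧ y m ((i + j) % (3 * m + 16)) = s m i := by
  rcases lt_or_ge i m with h1 | h1
  · refine ⟨1, le_rfl, by omega, ?_⟩
    rw [Nat.mod_eq_of_lt (by omega), y_a (by omega)]
    unfold s; rw [if_pos h1]; push_cast; ring
  rcases le_or_gt i (m + 5) with h2 | h2
  · have hs : s m i = 1 := by unfold s; rw [if_neg (by omega), if_pos h2]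
    rw [hs]
    rcases le_or_gt i (m + 2) with h3 | h3
    · refine ⟨m + 3 - i, by omega, by omega, ?_⟩
      rw [show i + (m + 3 - i) = m + 3 by omega, Nat.mod_eq_of_lt (by omega), y3]
    rcases le_or_gt i (m + 3) with h4 | h4
    · refine ⟨m + 4 - i, by omega, by omega, ?_⟩
      rw [show i + (m + 4 - i) = m + 4 by omega, Nat.mod_eq_of_lt (by omega), y4]
    · refine ⟨2 * m + 7 - i, by omega, by omega, ?_⟩
      rw [show i + (2 * m + 7 - i) = 2 * m + 7 by omega, Nat.mod_eq_of_lt (by omega), y7]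
  rcases le_or_gt i (2 * m + 5) with h3 | h3
  · refine ⟨m + 5, by omega, by omega, ?_⟩
    rw [Nat.mod_eq_of_lt (by omega), y_c (by omega) (by omega)]
    unfold s; rw [if_neg (by omega), if_neg (by omega), if_pos h3]; push_cast; ring
  have hs : s m i = m + 1 := by
    unfold s; rw [if_neg (by omega), if_neg (by omega), if_neg (by omega)]
  rw [hs]
  rcases le_or_gt i (3 * m + 10) with h4 | h4
  · refine ⟨3 * m + 11 - i, by omega, by omega, ?_⟩
    rw [show i + (3 * m + 11 - i) = 3 * m + 11 by omega, Nat.mod_eq_of_lt (by omega),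
      y_c (by omega) (by omega)]
    push_cast; ring
  rcases le_or_gt i (3 * m + 11) with h4' | h4'
  · refine ⟨3 * m + 12 - i, by omega, by omega, ?_⟩
    rw [show i + (3 * m + 12 - i) = 3 * m + 12 by omega, Nat.mod_eq_of_lt (by omega), y12]
  rcases lt_or_ge i (3 * m + 15) with h5 | h5
  · refine ⟨3 * m + 15 - i, by omega, by omega, ?_⟩
    rw [show i + (3 * m + 15 - i) = 3 * m + 15 by omega, Nat.mod_eq_of_lt (by omega), y15]
  · refine ⟨1, le_rfl, by omega, ?_⟩
    rw [show i + 1 = 3 * m + 16 by omega, Nat.mod_self, y_a (by omega)]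
    push_cast; ring

lemma solm (m : ℕ) : IsSolution (m + 6) (per (3 * m + 16) (y m)) := by
  apply isSolution_per (by omega)
  · intro i hi
    rw [sum_eq hi]; exact s_nonneg
  · intro i hi j h1 h2
    rw [sum_eq hi]; exact le_s hi h1 h2
  · intro i hi
    rw [sum_eq hi]; exact Or.inr (s_attained hi)

/-- for `k ≥ 7` the least period is `3 k - 2` -/
lemma hasPeriodm {m : ℕ} (hm : 1 ≤ m) : HasPeriod (per (3 * m + 16) (y m)) (3 * m + 16) := by
  refine ⟨⟨by omega, fun n _ => per_add _ _ _⟩, ?_⟩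
  rintro M ⟨hM, h⟩
  by_contra hlt
  push Not at hlt
  have h1 := h (m + 6) (by omega)
  have h2 := h (m + 5) (by omega)
  unfold per at h1 h2
  rw [Int.cast_inj] at h1 h2
  rw [Nat.mod_eq_of_lt (show m + 6 < 3 * m + 16 by omega),
    y_neg (m := m) (u := m + 6) (by omega) (by omega)] at h1
  rw [Nat.mod_eq_of_lt (show m + 5 < 3 * m + 16 by omega), y5'] at h2
  have h3 := y_eq_neg (Nat.mod_lt _ (by omega)) h1
  have h4 : ¬ (m + 6 ≤ (m + 5 + M) % (3 * m + 16) ∧ (m + 5 + M) % (3 * m + 16) ≤ 2 * m + 5) := by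
    rintro ⟨a, b⟩
    rw [y_neg a b] at h2
    norm_num at h2
  rcases mod_cases (show m + 6 < 3 * m + 16 by omega) hlt with ⟨a, b⟩ | ⟨a, b⟩ <;>
  rcases mod_cases (show m + 5 < 3 * m + 16 by omega) hlt with ⟨c, d⟩ | ⟨c, d⟩ <;>
  rw [b] at h3 <;> rw [d] at h4 <;> omega

lemma y0_period : ∀ i < 16, y 0 ((i + 4) % 16) = y 0 i := by decide

lemma y0_shift : ∀ M < 4, 1 ≤ M → ∃ i < 16, 1 ≤ i ∧ y 0 ((i + M) % 16) ≠ y 0 (i % 16) := by decide

/-- for `k = 6` the least period is `4` -/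
lemma hasPeriod6 : HasPeriod (per 16 (y 0)) 4 := by
  refine ⟨⟨by norm_num, fun n _ => ?_⟩, ?_⟩
  · unfold per
    have := y0_period (n % 16) (Nat.mod_lt _ (by norm_num))
    rw [Nat.mod_add_mod] at this
    exact_mod_cast this
  · rintro M ⟨hM, h⟩
    by_contra hlt
    push Not at hlt
    obtain ⟨i, _, hi, hne⟩ := y0_shift M hlt hM
    apply hne
    have := h i hi
    unfold per at this
    exact_mod_cast this

lemma pow_cases (k : ℕ) : ((3 : ℝ) - (-1) ^ k) / 2 = 1 ∨ ((3 : ℝ) - (-1) ^ k) / 2 = 2 := by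
  rcases neg_one_pow_eq_or ℝ k with h | h <;> rw [h] <;> norm_num

lemma not_conj {k N : ℕ} (hk : 6 ≤ k) (h2 : 3 ≤ N) (hN1 : N ≠ 2 * k) (hN2 : N ≠ 3 * k - 1)
    (hN3 : N ≤ 3 * k - 2) : N ∉ Conjectured k := by
  rintro (h | ⟨a, b, ha, hb, hg, h⟩)
  · rcases h with h | h | h | h
    · omega
    · rcases pow_cases k with h' | h' <;> rw [h'] at h
      · have : N = 1 := by exact_mod_cast h
        omega
      · have : N = 2 := by exact_mod_cast h
        omega
    · exact hN1 h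
    · exact hN2 h
  · have e1 : (3 * k - 2) * 1 ≤ (3 * k - 2) * a := Nat.mul_le_mul_left _ ha
    have e2 : (3 * k - 1) * 1 ≤ (3 * k - 1) * b := Nat.mul_le_mul_left _ hb
    omega

/-- **The conjectured inclusion of the set of periods fails for every `k ≥ 5`.**  For `k = 5` the
period `54` occurs, for `k = 6` the period `4` and for every `k ≥ 7` the period `3 k - 2`; none of
them is in the conjectured set. -/
theorem result :
    (∀ k : ℕ, 5 ≤ k → ¬ Per k ⊆ Conjectured k) ∧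
    54 ∈ Per 5 ∧ 4 ∈ Per 6 ∧ (∀ k : ℕ, 7 ≤ k → 3 * k - 2 ∈ Per k) := by
  have h5 : 54 ∈ Per 5 := ⟨_, sol5, hasPeriod5⟩
  have h6 : 4 ∈ Per 6 := ⟨_, solm 0, hasPeriod6⟩
  have h7 : ∀ k : ℕ, 7 ≤ k → 3 * k - 2 ∈ Per k := by
    intro k hk
    obtain ⟨m, rfl, hm⟩ : ∃ m, k = m + 6 ∧ 1 ≤ m := ⟨k - 6, by omega, by omega⟩
    rw [show 3 * (m + 6) - 2 = 3 * m + 16 by omega]
    exact ⟨_, solm m, hasPeriodm hm⟩
  refine ⟨fun k hk hsub => ?_, h5, h6, h7⟩
  rcases lt_or_ge k 6 with h | h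
  · obtain rfl : k = 5 := by omega
    exact not_conj5 (hsub h5)
  rcases lt_or_ge k 7 with h' | h'
  · obtain rfl : k = 6 := by omega
    exact not_conj le_rfl (by norm_num) (by norm_num) (by norm_num) (by norm_num) (hsub h6)
  · exact not_conj h (by omega) (by omega) (by omega) le_rfl (hsub (h7 k h'))

end Pool.Agent.Results.MP_06047d_an.AllOrdersFail
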